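import Mathlib

/-!
# Order rigidity of three-threshold patterns on the real line
-/

namespace Q109.Thr

/-- `P` follows the pattern: no below `c`, yes on `(c, c + A)`, no on `(c + A, c + A + B)`,
yes above `c + A + B` (nothing is said about the three boundary points). -/
structure Pat (A B c : ℝ) (P : ℝ → Prop) : Prop where
  n1 : ∀ s, s < c → ¬ P s
  e1 : ∀ s, c < s → s < c + A → P s
  n2 : ∀ s, c + A < s → s < c + A + B → ¬ P s
  e2 : ∀ s, c + A + B < s → P s

/-- `r` is a rank function for the pattern `P`: equal ranks give equal traces, and no trace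
alternates yes, no, yes, no along increasing ranks. -/
structure Rep {K : Type} [LinearOrder K] (P : ℝ → Prop) (r : ℝ → K) : Prop where
  sep : ∀ z x y, z ≠ x → z ≠ y → r x = r y → (P (z + x) ↔ P (z + y))
  alt : ∀ z a b c d, z ≠ a → z ≠ b → z ≠ c → z ≠ d → r a < r b → r b < r c → r c < r d →
    P (z + a) → ¬ P (z + b) → P (z + c) → ¬ P (z + d) → False

/-- an interval contains a point outside a finite set -/
theorem exists_avoid (lo hi : ℝ) (h : lo < hi) (F : Finset ℝ) :
    ∃ z, lo < z ∧ z < hi ∧ z ∉ F := by
  obtain ⟨z, hz, hzF⟩ := (Set.Ioo_infinite h).exists_notMem_finset F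
  exact ⟨z, hz.1, hz.2, hzF⟩

theorem Rep.inj {K : Type} [LinearOrder K] {A B c : ℝ} {P : ℝ → Prop} {r : ℝ → K}
    (hP : Pat A B c P) (hr : Rep P r) (hA : 0 < A) {x y : ℝ} (hxy : x < y) : r x ≠ r y := by
  intro h
  obtain ⟨z, h1, h2, h3⟩ := exists_avoid (c - y) (min (c - x) (c + A - y))
    (by apply lt_min <;> linarith) {x, y}
  simp only [Finset.mem_insert, Finset.mem_singleton, not_or] at h3
  have h4 := lt_min_iff.mp h2
  have h5 := hr.sep z x y h3.1 h3.2 h
  exact hP.n1 (z + x) (by linarith) (h5.mpr (hP.e1 (z + y) (by linarith) (by linarith)))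

/-- the eight traces on the six points (yes set, no set) -/
def tr : List (List (Fin 6) × List (Fin 6)) :=
  [([1, 4, 5], [0, 2, 3]), ([1, 2, 3], [0, 4, 5]), ([2, 3, 4, 5], [0, 1]), ([3, 4], [0, 1, 2]),
   ([1, 2, 5], [0, 3, 4]), ([2, 3, 4], [0, 1, 5]), ([1, 2, 3, 5], [0, 4]),
   ([4, 5], [0, 1, 2, 3])]

def quads : List (Fin 6 × Fin 6 × Fin 6 × Fin 6) :=
  [(0, 1, 2, 3), (0, 1, 2, 4), (0, 1, 2, 5), (0, 1, 3, 4), (0, 1, 3, 5), (0, 1, 4, 5),
   (0, 2, 3, 4), (0, 2, 3, 5), (0, 2, 4, 5), (0, 3, 4, 5), (1, 2, 3, 4), (1, 2, 3, 5),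
   (1, 2, 4, 5), (1, 3, 4, 5), (2, 3, 4, 5)]

/-- the order `σ` has an alternating trace -/
def badOrder (σ : Fin 6 → Fin 6) : Bool :=
  tr.any fun T => quads.any fun q =>
    T.1.contains (σ q.1) && T.2.contains (σ q.2.1) && T.1.contains (σ q.2.2.1)
      && T.2.contains (σ q.2.2.2)

theorem key : ∀ σ : Equiv.Perm (Fin 6), badOrder σ = true ∨ σ.symm 0 < σ.symm 1 := by
  decide +kernel

/-- a trace is realised -/
structure Real6 (P : ℝ → Prop) (p : Fin 6 → ℝ) (T : List (Fin 6) × List (Fin 6)) : Prop where
  ex : ∃ z, (∀ i, z ≠ p i) ∧ (∀ i ∈ T.1, P (z + p i)) ∧ (∀ i ∈ T.2, ¬ P (z + p i))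

/-- if all eight traces are realised, then the first point has smaller rank than the second -/
theorem first_lt {K : Type} [LinearOrder K] {P : ℝ → Prop} {r : ℝ → K} (hr : Rep P r)
    (p : Fin 6 → ℝ) (hinj : ∀ i j, i ≠ j → r (p i) ≠ r (p j))
    (hT : ∀ T ∈ tr, Real6 P p T) : r (p 0) < r (p 1) := by
  set f : Fin 6 → K := fun i => r (p i) with hf
  set σ := Tuple.sort f with hσ
  have hmono : Monotone (f ∘ σ) := Tuple.monotone_sort f
  have hsm : StrictMono (f ∘ σ) := by
    apply hmono.strictMono_of_injective
    intro i j hij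
    by_contra hne
    exact hinj (σ i) (σ j) (fun h => hne (σ.injective h)) hij
  rcases key σ with hbad | hlt
  · exfalso
    unfold badOrder at hbad
    rw [List.any_eq_true] at hbad
    obtain ⟨T, hTm, hbad⟩ := hbad
    rw [List.any_eq_true] at hbad
    obtain ⟨q, hq, hbad⟩ := hbad
    simp only [Bool.and_eq_true, List.contains_iff_mem] at hbad
    obtain ⟨⟨⟨h1, h2⟩, h3⟩, h4⟩ := hbad
    obtain ⟨z, hz, hz1, hz2⟩ := (hT T hTm).ex
    have hlt : q.1 < q.2.1 ∧ q.2.1 < q.2.2.1 ∧ q.2.2.1 < q.2.2.2 := by
      have : ∀ q ∈ quads, q.1 < q.2.1 ∧ q.2.1 < q.2.2.1 ∧ q.2.2.1 < q.2.2.2 := by decide +kernel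
      exact this q hq
    exact hr.alt z _ _ _ _ (hz _) (hz _) (hz _) (hz _) (hsm hlt.1) (hsm hlt.2.1)
      (hsm hlt.2.2) (hz1 _ h1) (hz2 _ h2) (hz1 _ h3) (hz2 _ h4)
  · have h := hsm hlt
    simpa [hf] using h

/-- the six points -/
def pts (A B u d : ℝ) : Fin 6 → ℝ :=
  ![u, u + 5 * d, u + A + 2 * d, u + A + 3 * d, u + A + B + d, u + A + B + 4 * d]

theorem real_pts {P : ℝ → Prop} {A B c : ℝ} (hP : Pat A B c P) (hB : 0 < B) (hBA : B ≤ A)
    (u d : ℝ) (hd : 0 < d) (hd' : 10 * d < B) : ∀ T ∈ tr, Real6 P (pts A B u d) T := by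
  have mk : ∀ T : List (Fin 6) × List (Fin 6), ∀ lo hi : ℝ, lo < hi →
      (∀ z, lo < c - u - z → c - u - z < hi → (∀ i ∈ T.1, P (z + pts A B u d i)) ∧
        (∀ i ∈ T.2, ¬ P (z + pts A B u d i))) → Real6 P (pts A B u d) T := by
    intro T lo hi hlh h
    obtain ⟨z, hz1, hz2, hz3⟩ := exists_avoid (c - u - hi) (c - u - lo) (by linarith)
      (Finset.univ.image (pts A B u d))
    refine ⟨z, ?_, h z (by linarith) (by linarith)⟩
    intro i hi
    exact hz3 (by simp [hi])
  have yes : ∀ z w, (c < z + w ∧ z + w < c + A) ∨ c + A + B < z + w → P (z + w) := by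
    rintro z w (⟨h1, h2⟩ | h)
    · exact hP.e1 _ h1 h2
    · exact hP.e2 _ h
  have no : ∀ z w, z + w < c ∨ (c + A < z + w ∧ z + w < c + A + B) → ¬ P (z + w) := by
    rintro z w (h | ⟨h1, h2⟩)
    · exact hP.n1 _ h
    · exact hP.n2 _ h1 h2
  intro T hT
  simp only [tr, List.mem_cons, List.not_mem_nil, or_false] at hT
  rcases hT with rfl | rfl | rfl | rfl | rfl | rfl | rfl | rfl
  · refine mk _ 0 d (by linarith) ?_
    intro z h1 h2
    simp only [List.mem_cons, List.not_mem_nil, or_false]
    constructor
    · rintro i (rfl | rfl | rfl) <;> apply yes <;> simp only [pts, Matrix.cons_val] <;>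
        first | (left; constructor <;> linarith) | (right; linarith)
    · rintro i (rfl | rfl | rfl) <;> apply no <;> simp only [pts, Matrix.cons_val] <;>
        first | (left; linarith) | (right; constructor <;> linarith)
  · refine mk _ (4 * d) (5 * d) (by linarith) ?_
    intro z h1 h2
    simp only [List.mem_cons, List.not_mem_nil, or_false]
    constructor
    · rintro i (rfl | rfl | rfl) <;> apply yes <;> simp only [pts, Matrix.cons_val] <;>
        first | (left; constructor <;> linarith) | (right; linarith)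
    · rintro i (rfl | rfl | rfl) <;> apply no <;> simp only [pts, Matrix.cons_val] <;>
        first | (left; linarith) | (right; constructor <;> linarith)
  · refine mk _ (5 * d - A - B) (-A) (by linarith) ?_
    intro z h1 h2
    simp only [List.mem_cons, List.not_mem_nil, or_false]
    constructor
    · rintro i (rfl | rfl | rfl | rfl) <;> apply yes <;> simp only [pts, Matrix.cons_val] <;>
        first | (left; constructor <;> linarith) | (right; linarith)
    · rintro i (rfl | rfl) <;> apply no <;> simp only [pts, Matrix.cons_val] <;>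
        first | (left; linarith) | (right; constructor <;> linarith)
  · refine mk _ (A + 2 * d) (A + 3 * d) (by linarith) ?_
    intro z h1 h2
    simp only [List.mem_cons, List.not_mem_nil, or_false]
    constructor
    · rintro i (rfl | rfl) <;> apply yes <;> simp only [pts, Matrix.cons_val] <;>
        first | (left; constructor <;> linarith) | (right; linarith)
    · rintro i (rfl | rfl | rfl) <;> apply no <;> simp only [pts, Matrix.cons_val] <;>
        first | (left; linarith) | (right; constructor <;> linarith)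
  · refine mk _ (2 * d) (3 * d) (by linarith) ?_
    intro z h1 h2
    simp only [List.mem_cons, List.not_mem_nil, or_false]
    constructor
    · rintro i (rfl | rfl | rfl) <;> apply yes <;> simp only [pts, Matrix.cons_val] <;>
        first | (left; constructor <;> linarith) | (right; linarith)
    · rintro i (rfl | rfl | rfl) <;> apply no <;> simp only [pts, Matrix.cons_val] <;>
        first | (left; linarith) | (right; constructor <;> linarith)
  · refine mk _ (B + d) (B + 2 * d) (by linarith) ?_
    intro z h1 h2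
    simp only [List.mem_cons, List.not_mem_nil, or_false]
    constructor
    · rintro i (rfl | rfl | rfl) <;> apply yes <;> simp only [pts, Matrix.cons_val] <;>
        first | (left; constructor <;> linarith) | (right; linarith)
    · rintro i (rfl | rfl | rfl) <;> apply no <;> simp only [pts, Matrix.cons_val] <;>
        first | (left; linarith) | (right; constructor <;> linarith)
  · refine mk _ (3 * d) (4 * d) (by linarith) ?_
    intro z h1 h2
    simp only [List.mem_cons, List.not_mem_nil, or_false]
    constructor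
    · rintro i (rfl | rfl | rfl | rfl) <;> apply yes <;> simp only [pts, Matrix.cons_val] <;>
        first | (left; constructor <;> linarith) | (right; linarith)
    · rintro i (rfl | rfl) <;> apply no <;> simp only [pts, Matrix.cons_val] <;>
        first | (left; linarith) | (right; constructor <;> linarith)
  · refine mk _ (A + 4 * d) (A + B + d) (by linarith) ?_
    intro z h1 h2
    simp only [List.mem_cons, List.not_mem_nil, or_false]
    constructor
    · rintro i (rfl | rfl) <;> apply yes <;> simp only [pts, Matrix.cons_val] <;>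
        first | (left; constructor <;> linarith) | (right; linarith)
    · rintro i (rfl | rfl | rfl | rfl) <;> apply no <;> simp only [pts, Matrix.cons_val] <;>
        first | (left; linarith) | (right; constructor <;> linarith)

end Q109.Thr
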