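import Pool.Agent.Q109.Thr.Mono

/-!
# The ladder: the width of the second band is determined
-/

namespace Q109.Thr

section
variable {K : Type} [CommRing K] [LinearOrder K] [IsStrictOrderedRing K] {P : ℝ → Prop}
  {r : ℝ → K} {t : K} {B : ℝ}

theorem step_lt_two (h : TRep P r t) (hP : Pat 2 B (-1) P) (hB : 0 < B) (hr : StrictMono r)
    {x y : ℝ} (hxy : x < y) (hd : y - x < 2) : r y - r x ≤ 2 := by
  obtain ⟨z, hz1, hz2, hz3⟩ := exists_avoid (-1 - x) (1 - y) (by linarith)
    {x, y}
  simp only [Finset.mem_insert, Finset.mem_singleton, not_or] at hz3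
  obtain ⟨b, hb1, hb2, hb3⟩ := exists_avoid (1 - z) (1 - z + B) (by linarith) {z}
  simp only [Finset.mem_singleton] at hb3
  have hx : P (z + x) := hP.e1 _ (by linarith) (by linarith)
  have hy : P (z + y) := hP.e1 _ (by linarith) (by linarith)
  have hb : ¬ P (z + b) := hP.n2 _ (by linarith) (by linarith)
  rw [h.iff _ _ hz3.1] at hx
  rw [h.iff _ _ hz3.2] at hy
  rw [h.iff _ _ (Ne.symm hb3)] at hb
  push Not at hb
  have h1 := hr hxy
  have h2 : r y < r b := hr (by linarith)
  have e1 : r z + r x < r z + r y := by simpa using h1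
  have e2 : r z + r y < r z + r b := by simpa using h2
  have ny : ¬ t ≤ r z + r y := fun h => absurd (h.trans e2.le) (not_le.mpr hb.2)
  rcases hy with hy | hy
  · rcases hx with hx | hx
    · have := sub_le_sub hy.2.le hx.1
      calc r y - r x = (r z + r y) - (r z + r x) := by abel
        _ ≤ 1 - (-1) := this
        _ = 2 := by norm_num
    · exact absurd (hx.trans e1.le) ny
  · exact absurd hy ny

theorem step_gt_two (h : TRep P r t) (hP : Pat 2 B (-1) P) (hB : 0 < B) (hr : StrictMono r)
    {x y : ℝ} (hd : 2 < y - x) : 2 ≤ r y - r x := by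
  obtain ⟨z, hz1, hz2, hz3⟩ := exists_avoid (1 - y) (min (1 - y + B) (-1 - x))
    (by apply lt_min <;> linarith) {x, y}
  simp only [Finset.mem_insert, Finset.mem_singleton, not_or] at hz3
  have hz2' := lt_min_iff.mp hz2
  obtain ⟨m, hm1, hm2, hm3⟩ := exists_avoid (-1 - z) (1 - z) (by linarith) {z}
  simp only [Finset.mem_singleton] at hm3
  have hx : ¬ P (z + x) := hP.n1 _ (by linarith)
  have hm : P (z + m) := hP.e1 _ (by linarith) (by linarith)
  have hy : ¬ P (z + y) := hP.n2 _ (by linarith) (by linarith)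
  rw [h.iff _ _ hz3.1] at hx
  rw [h.iff _ _ hz3.2] at hy
  rw [h.iff _ _ (Ne.symm hm3)] at hm
  push Not at hx hy
  have h1 : r x < r m := hr (by linarith)
  have h2 : r m < r y := hr (by linarith)
  have e1 : r z + r x < r z + r m := by simpa using h1
  have e2 : r z + r m < r z + r y := by simpa using h2
  rcases hm with hm | hm
  · have hx1 : r z + r x < -1 := by
      by_contra hcon
      exact absurd (hx.1 (not_lt.mp hcon)) (not_le.mpr (e1.trans hm.2))
    have hy1 : 1 ≤ r z + r y := hy.1 (hm.1.trans e2.le)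
    calc (2 : K) = 1 - (-1) := by norm_num
      _ ≤ (r z + r y) - (r z + r x) := sub_le_sub hy1 hx1.le
      _ = r y - r x := by abel
  · exact absurd (hm.trans e2.le) (not_le.mpr hy.2)

theorem step_lt_B (h : TRep P r t) (hP : Pat 2 B (-1) P) (hr : StrictMono r)
    {x y : ℝ} (hxy : x < y) (hd : y - x < B) : r y - r x ≤ t - 1 := by
  obtain ⟨z, hz1, hz2, hz3⟩ := exists_avoid (1 - x) (1 + B - y) (by linarith)
    {x, y}
  simp only [Finset.mem_insert, Finset.mem_singleton, not_or] at hz3
  obtain ⟨a, ha1, ha2, ha3⟩ := exists_avoid (-1 - z) (1 - z) (by linarith) {z}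
  simp only [Finset.mem_singleton] at ha3
  have ha : P (z + a) := hP.e1 _ (by linarith) (by linarith)
  have hx : ¬ P (z + x) := hP.n2 _ (by linarith) (by linarith)
  have hy : ¬ P (z + y) := hP.n2 _ (by linarith) (by linarith)
  rw [h.iff _ _ hz3.1] at hx
  rw [h.iff _ _ hz3.2] at hy
  rw [h.iff _ _ (Ne.symm ha3)] at ha
  push Not at hx hy
  have h1 := hr hxy
  have h2 : r a < r x := hr (by linarith)
  have e1 : r z + r x < r z + r y := by simpa using h1
  have e2 : r z + r a < r z + r x := by simpa using h2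
  rcases ha with ha | ha
  · have hx1 := hx.1 (ha.1.trans e2.le)
    calc r y - r x = (r z + r y) - (r z + r x) := by abel
      _ ≤ t - 1 := sub_le_sub hy.2.le hx1
  · exact absurd (ha.trans e2.le) (not_le.mpr hx.2)

theorem step_gt_B (h : TRep P r t) (hP : Pat 2 B (-1) P) (hB : 0 < B) (hr : StrictMono r)
    {x y : ℝ} (hd : B < y - x) : t - 1 ≤ r y - r x := by
  obtain ⟨z, hz1, hz2, hz3⟩ := exists_avoid (max (-1 - x) (1 + B - y)) (1 - x)
    (by apply max_lt <;> linarith) {x, y}
  simp only [Finset.mem_insert, Finset.mem_singleton, not_or] at hz3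
  have hz1' := max_lt_iff.mp hz1
  obtain ⟨m, hm1, hm2, hm3⟩ := exists_avoid (1 - z) (1 + B - z) (by linarith) {z}
  simp only [Finset.mem_singleton] at hm3
  have hx : P (z + x) := hP.e1 _ (by linarith) (by linarith)
  have hm : ¬ P (z + m) := hP.n2 _ (by linarith) (by linarith)
  have hy : P (z + y) := hP.e2 _ (by linarith)
  rw [h.iff _ _ hz3.1] at hx
  rw [h.iff _ _ hz3.2] at hy
  rw [h.iff _ _ (Ne.symm hm3)] at hm
  push Not at hm
  have h1 : r x < r m := hr (by linarith)
  have h2 : r m < r y := hr (by linarith)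
  have e1 : r z + r x < r z + r m := by simpa using h1
  have e2 : r z + r m < r z + r y := by simpa using h2
  rcases hx with hx | hx
  · have hm1 := hm.1 (hx.1.trans e1.le)
    rcases hy with hy | hy
    · exact absurd (hm1.trans e2.le) (not_le.mpr hy.2)
    · calc t - 1 ≤ (r z + r y) - (r z + r x) := sub_le_sub hy hx.2.le
        _ = r y - r x := by abel
  · exact absurd (hx.trans e1.le) (not_le.mpr hm.2)

theorem ladder_le {c : K} {s : ℝ} (hs : ∀ x, r (x + s) - r x ≤ c) (k : ℕ) :
    r (k * s) - r 0 ≤ k * c := by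
  induction k with
  | zero => simp
  | succ k ih =>
    have h1 := hs (k * s)
    have e : ((k + 1 : ℕ) : ℝ) * s = k * s + s := by push_cast; ring
    rw [e]
    calc r (k * s + s) - r 0 = (r (k * s + s) - r (k * s)) + (r (k * s) - r 0) := by abel
      _ ≤ c + k * c := add_le_add h1 ih
      _ = ((k + 1 : ℕ) : K) * c := by push_cast; rw [add_mul, one_mul, add_comm]

theorem ladder_ge {c : K} {s : ℝ} (hs : ∀ x, c ≤ r (x + s) - r x) (k : ℕ) :
    k * c ≤ r (k * s) - r 0 := by
  induction k with
  | zero => simp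
  | succ k ih =>
    have h1 := hs (k * s)
    have e : ((k + 1 : ℕ) : ℝ) * s = k * s + s := by push_cast; ring
    rw [e]
    calc ((k + 1 : ℕ) : K) * c = c + k * c := by push_cast; rw [add_mul, one_mul, add_comm]
      _ ≤ (r (k * s + s) - r (k * s)) + (r (k * s) - r 0) := add_le_add h1 ih
      _ = r (k * s + s) - r 0 := by abel

/-- two naturals between -/
theorem exists_ratio {p q : ℝ} (hp : 0 < p) (hpq : p < q) :
    ∃ k m : ℕ, 0 < k ∧ 0 < m ∧ m * p < 2 * k ∧ 2 * (k : ℝ) < m * q := by
  obtain ⟨w, hw1, hw2⟩ := exists_rat_btwn (show p / 2 < q / 2 by linarith)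
  have hw0 : (0 : ℝ) < w := by linarith
  have hwq : 0 < w := by exact_mod_cast hw0
  have hden : (0 : ℝ) < w.den := by exact_mod_cast w.den_pos
  have hnum : 0 < w.num := Rat.num_pos.mpr hwq
  have hk : ((w.num.toNat : ℕ) : ℝ) = (w.num : ℝ) := by
    have : ((w.num.toNat : ℕ) : ℤ) = w.num := Int.toNat_of_nonneg hnum.le
    exact_mod_cast this
  have hw : (w : ℝ) * w.den = w.num := by
    exact_mod_cast Rat.mul_den_eq_num w
  refine ⟨w.num.toNat, w.den, by omega, w.den_pos, ?_, ?_⟩
  · rw [hk, ← hw]
    nlinarith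
  · rw [hk, ← hw]
    nlinarith

/-- the second band width is the same -/
theorem band_eq (f : ℝ →+* K) (hf : StrictMono f) {t' : ℝ} (ht : 1 < t')
    (h : TRep P r (f t')) (hP : Pat 2 B (-1) P) (hB : 0 < B) : B = t' - 1 := by
  have hr : StrictMono r := h.rep.strictMono hP (by norm_num) hB
  rcases lt_trichotomy B (t' - 1) with hlt | heq | hgt
  · exfalso
    obtain ⟨k, m, hk, hm, h1, h2⟩ := exists_ratio hB hlt
    have hk' : (0 : ℝ) < k := by exact_mod_cast hk
    have hm' : (0 : ℝ) < m := by exact_mod_cast hm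
    set w : ℝ := (m * B + 2 * k) / 2 with hw
    have hw1 : w / k < 2 := by rw [div_lt_iff₀ hk', hw]; linarith
    have hw2 : B < w / m := by rw [lt_div_iff₀ hm', hw]; linarith
    have hw0 : 0 < w / k := by
      apply div_pos _ hk'
      rw [hw]; nlinarith
    have e1 := ladder_le (r := r) (c := 2) (s := w / k)
      (fun x => step_lt_two h hP hB hr (by linarith) (by linarith)) k
    have e2 := ladder_ge (r := r) (c := f t' - 1) (s := w / m)
      (fun x => step_gt_B h hP hB hr (by linarith)) m
    rw [mul_div_cancel₀ _ hk'.ne'] at e1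
    rw [mul_div_cancel₀ _ hm'.ne'] at e2
    have e3 : f (m * (t' - 1)) ≤ f (2 * k) := by
      have := e2.trans e1
      simp only [map_mul, map_sub, map_one, map_natCast, map_ofNat]
      rw [mul_comm (2 : K)]
      exact this
    have := hf.le_iff_le.mp e3
    linarith
  · exact heq
  · exfalso
    obtain ⟨k, m, hk, hm, h1, h2⟩ := exists_ratio (show (0 : ℝ) < t' - 1 by linarith) hgt
    have hk' : (0 : ℝ) < k := by exact_mod_cast hk
    have hm' : (0 : ℝ) < m := by exact_mod_cast hm
    set w : ℝ := (m * B + 2 * k) / 2 with hw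
    have hw1 : 2 < w / k := by rw [lt_div_iff₀ hk', hw]; linarith
    have hw2 : w / m < B := by rw [div_lt_iff₀ hm', hw]; linarith
    have hw0 : 0 < w / m := by
      apply div_pos _ hm'
      rw [hw]; nlinarith
    have e1 := ladder_ge (r := r) (c := 2) (s := w / k)
      (fun x => step_gt_two h hP hB hr (by linarith)) k
    have e2 := ladder_le (r := r) (c := f t' - 1) (s := w / m)
      (fun x => step_lt_B h hP hr (by linarith) (by linarith)) m
    rw [mul_div_cancel₀ _ hk'.ne'] at e1
    rw [mul_div_cancel₀ _ hm'.ne'] at e2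
    have e3 : f (2 * k) ≤ f (m * (t' - 1)) := by
      have := e1.trans e2
      simp only [map_mul, map_sub, map_one, map_natCast, map_ofNat]
      rw [mul_comm (2 : K)]
      exact this
    have := hf.le_iff_le.mp e3
    linarith

end

end Q109.Thr
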