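import Pool.Agent.Q109.Thr.Core

/-!
# Rank functions of three-threshold patterns are increasing
-/

namespace Q109.Thr

theorem pts_lt {A B u d : ℝ} (hd : 0 < d) (hd' : 10 * d < B) (hA : B ≤ A) :
    ∀ i j : Fin 6, i < j → pts A B u d i < pts A B u d j := by
  have h : StrictMono (pts A B u d) := by
    rw [Fin.strictMono_iff_lt_succ]
    intro i
    fin_cases i <;> simp only [pts] <;> simp [Matrix.cons_val] <;> linarith
  intro i j hij
  exact h hij

theorem local_lt {K : Type} [LinearOrder K] {P : ℝ → Prop} {r : ℝ → K} {A B c : ℝ}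
    (hP : Pat A B c P) (hB : 0 < B) (hBA : B ≤ A) (hr : Rep P r) (u v : ℝ) (huv : u < v)
    (hv : v - u < B / 2) : r u < r v := by
  set d := (v - u) / 5 with hd
  have hd0 : 0 < d := by rw [hd]; linarith
  have hd1 : 10 * d < B := by rw [hd]; linarith
  have hlt := pts_lt (u := u) hd0 hd1 hBA
  have h := first_lt hr (pts A B u d) ?_ (real_pts hP hB hBA u d hd0 hd1)
  · have h0 : pts A B u d 0 = u := by simp [pts]
    have h1 : pts A B u d 1 = v := by
      have : pts A B u d 1 = u + 5 * d := by simp [pts]
      rw [this, hd]; ring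
    rwa [h0, h1] at h
  · intro i j hij
    rcases lt_or_gt_of_ne hij with h | h
    · exact hr.inj hP (by linarith) (hlt i j h)
    · exact (hr.inj hP (by linarith) (hlt j i h)).symm

/-- complementing and reflecting a pattern -/
theorem Pat.mirror {A B c : ℝ} {P : ℝ → Prop} (hP : Pat A B c P) :
    Pat B A (-(c + A + B)) (fun s => ¬ P (-s)) where
  n1 := by
    intro s hs h
    exact h (hP.e2 _ (by linarith))
  e1 := by
    intro s h1 h2
    exact hP.n2 _ (by linarith) (by linarith)
  n2 := by
    intro s h1 h2 h
    exact h (hP.e1 _ (by linarith) (by linarith))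
  e2 := by
    intro s h
    exact hP.n1 _ (by linarith)

theorem Rep.mirror {K : Type} [LinearOrder K] {P : ℝ → Prop} {r : ℝ → K} (hr : Rep P r) :
    Rep (fun s => ¬ P (-s)) (fun x => OrderDual.toDual (r (-x))) where
  sep := by
    intro z x y hx hy h
    have h1 := hr.sep (-z) (-x) (-y) (fun e => hx (neg_injective e))
      (fun e => hy (neg_injective e)) (OrderDual.toDual.injective h)
    have e1 : -(z + x) = -z + -x := by ring
    have e2 : -(z + y) = -z + -y := by ring
    rw [e1, e2, h1]
  alt := by
    intro z a b c d ha hb hc hd hab hbc hcd h1 h2 h3 h4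
    have e : ∀ w, -(z + w) = -z + -w := by intro w; ring
    simp only [e, not_not] at h1 h2 h3 h4
    exact hr.alt (-z) (-d) (-c) (-b) (-a) (fun e => hd (neg_injective e))
      (fun e => hc (neg_injective e)) (fun e => hb (neg_injective e))
      (fun e => ha (neg_injective e)) (OrderDual.toDual_lt_toDual.mp hcd)
      (OrderDual.toDual_lt_toDual.mp hbc) (OrderDual.toDual_lt_toDual.mp hab) h4 h3 h2 h1

theorem strictMono_of_local {K : Type} [LinearOrder K] {r : ℝ → K} {e : ℝ} (he : 0 < e)
    (h : ∀ u v, u < v → v - u < e → r u < r v) : StrictMono r := by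
  have key : ∀ n : ℕ, ∀ u v, u < v → v - u < 2 ^ n * e → r u < r v := by
    intro n
    induction n with
    | zero =>
      intro u v huv hv
      exact h u v huv (by simpa using hv)
    | succ n ih =>
      intro u v huv hv
      have h1 : r u < r ((u + v) / 2) :=
        ih u ((u + v) / 2) (by linarith) (by rw [pow_succ] at hv; linarith)
      have h2 : r ((u + v) / 2) < r v :=
        ih ((u + v) / 2) v (by linarith) (by rw [pow_succ] at hv; linarith)
      exact h1.trans h2
  intro u v huv
  obtain ⟨n, hn⟩ := pow_unbounded_of_one_lt ((v - u) / e) (one_lt_two)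
  refine key n u v huv ?_
  rwa [div_lt_iff₀ he] at hn

theorem Rep.strictMono {K : Type} [LinearOrder K] {P : ℝ → Prop} {r : ℝ → K} {A B c : ℝ}
    (hP : Pat A B c P) (hA : 0 < A) (hB : 0 < B) (hr : Rep P r) : StrictMono r := by
  rcases le_total B A with h | h
  · exact strictMono_of_local (by linarith : 0 < B / 2) (local_lt hP hB h hr)
  · have h1 := strictMono_of_local (by linarith : 0 < A / 2)
      (local_lt hP.mirror hA h hr.mirror)
    intro x y hxy
    have h2 := h1 (neg_lt_neg hxy)
    simpa using h2

/-- A rank function of the pattern with bands `A`, `B` into an ordered group, with target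
pattern `[-1,1) ∪ [t, ∞)`. -/
structure TRep {K : Type} [Ring K] [LinearOrder K] (P : ℝ → Prop) (r : ℝ → K) (t : K) :
    Prop where
  iff : ∀ x y, x ≠ y → (P (x + y) ↔ (-1 ≤ r x + r y ∧ r x + r y < 1) ∨ t ≤ r x + r y)

section
variable {K : Type} [Ring K] [LinearOrder K] [IsStrictOrderedRing K] {P : ℝ → Prop}
  {r : ℝ → K} {t : K}

theorem TRep.rep (h : TRep P r t) : Rep P r where
  sep := by
    intro z x y hx hy hxy
    rw [h.iff z x hx, h.iff z y hy, hxy]
  alt := by
    intro z a b c d ha hb hc hd hab hbc hcd h1 h2 h3 h4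
    rw [h.iff _ _ ha] at h1
    rw [h.iff _ _ hb] at h2
    rw [h.iff _ _ hc] at h3
    rw [h.iff _ _ hd] at h4
    push Not at h2 h4
    have hab' : r z + r a < r z + r b := by simpa using hab
    have hbc' : r z + r b < r z + r c := by simpa using hbc
    have hcd' : r z + r c < r z + r d := by simpa using hcd
    have ht : ¬ t ≤ r z + r c := fun h => absurd (h.trans hcd'.le) (not_le.mpr h4.2)
    rcases h3 with h3 | h3
    · rcases h1 with h1 | h1
      · have := h2.1 (h1.1.trans hab'.le)
        exact absurd (this.trans hbc'.le) (not_le.mpr h3.2)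
      · exact ht (h1.trans (hab'.trans hbc').le)
    · exact ht h3

end

end Q109.Thr
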